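import Mathlib
import Pool.Agent.H7.HillWalk

namespace Pool.Agent.Results.MP_46c8ea_co.Closed

open Pool.Agent.H7.HillWalk

/-- The vertex `j(t)` of the walk with step list `x` started at `-n`. -/
def vtx (n : ℤ) (x : List ℤ) (t : ℕ) : ℤ := -n + (x.take t).sum

/-- Admissible walks from `-n` to `n` with steps in `{-2, 4}` and exactly `κ` steps `-2`. -/
def X (n : ℤ) (κ : ℕ) : Set (List ℤ) :=
  {x | 2 ≤ x.length ∧ (∀ s ∈ x, s = -2 ∨ s = 4) ∧ x.count (-2) = κ ∧ x.sum = 2 * n ∧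
    ∀ t, 1 ≤ t → t < x.length → vtx n x t ≠ n ∧ vtx n x t ≠ -n}

/-- The weight `h_1(x)`. -/
noncomputable def h (n : ℤ) (x : List ℤ) : ℝ :=
  ∏ t ∈ Finset.Ico 1 x.length, 1 / ((n : ℝ) ^ 2 - (vtx n x t : ℝ) ^ 2)

/-- The sum `B_κ(n)`. -/
noncomputable def B (κ : ℕ) (n : ℤ) : ℝ := ∑ᶠ x ∈ X n κ, h n x

lemma G_eq (n : ℤ) (x : List ℤ) : ∀ p : ℤ,
    G n p x = ∏ t ∈ Finset.range x.length, w n (p + (x.take t).sum) := by
  induction x with
  | nil => intro p; simp [G]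
  | cons a x ih =>
    intro p
    rw [G, ih, List.length_cons, Finset.prod_range_succ', mul_comm]
    simp [add_assoc]

lemma h_cons (n a : ℤ) (x : List ℤ) : h n (a :: x) = G n (-n + a) x := by
  rw [G_eq, h, Finset.prod_Ico_eq_prod_range]
  simp only [List.length_cons, Nat.add_sub_cancel]
  refine Finset.prod_congr rfl fun t _ => ?_
  rw [add_comm 1 t]
  simp [w, vtx, add_assoc]

lemma sum_eq (x : List ℤ) (hx : ∀ s ∈ x, s = -2 ∨ s = 4) :
    x.sum = 4 * x.length - 6 * x.count (-2) := by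
  induction x with
  | nil => simp
  | cons a x ih =>
    have := ih fun s hs => hx s (List.mem_cons_of_mem _ hs)
    rcases hx a (by simp) with rfl | rfl
    · simp [this]; ring
    · simp [this]; ring

lemma B_eq (m : ℕ) : B 3 (2 * m + 1) = D m 2 (m + 2) + D m 3 (m + 1) := by
  have e : B 3 (2 * m + 1) = ∑ x ∈ words 3 (m + 2), h (2 * m + 1) x := by
    unfold B
    apply finsum_mem_eq_sum_of_inter_support_eq
    ext x
    simp only [X, Set.mem_inter_iff, Set.mem_setOf_eq, Function.mem_support, Finset.mem_coe,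
      mem_words]
    constructor
    · rintro ⟨⟨_, h2, h3, h4, _⟩, h6⟩
      refine ⟨⟨h2, h3, ?_⟩, h6⟩
      have := sum_eq x h2
      omega
    · rintro ⟨⟨h2, h3, h4⟩, h6⟩
      have := sum_eq x h2
      refine ⟨⟨by omega, h2, h3, by omega, ?_⟩, h6⟩
      intro t ht1 ht2
      have hne := Finset.prod_ne_zero_iff.mp h6 t (Finset.mem_Ico.mpr ⟨ht1, ht2⟩)
      constructor
      · intro hv; apply hne; rw [hv]; simp
      · intro hv; apply hne; rw [hv]; push_cast; rw [neg_sq]; simp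
  rw [e, sum_words]
  simp only [h_cons, D, E]
  congr 1
  · refine Finset.sum_congr rfl fun x _ => ?_
    congr 1; push_cast; ring
  · refine Finset.sum_congr rfl fun x _ => ?_
    congr 1; push_cast; ring

theorem result :
    (∀ m : ℕ, 2 ≤ m → B 3 (2 * m + 1) = 3 * ((m : ℝ) + 2) /
      (4 ^ (m + 5) * (m : ℝ) ^ 2 * ((m : ℝ) + 1) ^ 3 * (2 * (m : ℝ) - 1) * (2 * (m : ℝ) + 3)
        * ((2 * m).factorial : ℝ))) ∧
    ∀ C : ℝ, 0 < C → ∃ M : ℕ, ∀ m : ℕ, M ≤ m →
      |B 3 (2 * m + 1)| < C ^ m / (m.factorial : ℝ) := by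
  refine ⟨fun m hm => by rw [B_eq, closed m hm], fun C hC => ?_⟩
  have ht := FloorSemiring.tendsto_pow_div_factorial_atTop (K := ℝ) (1 / C)
  obtain ⟨M, hM⟩ := Filter.eventually_atTop.mp (ht.eventually (gt_mem_nhds one_pos))
  refine ⟨max M 2, fun m hm => ?_⟩
  have hm2 : 2 ≤ m := le_of_max_le_right hm
  have h1 := hM m (le_of_max_le_left hm)
  have hm2' : (2 : ℝ) ≤ m := by exact_mod_cast hm2
  have hf : (0 : ℝ) < m.factorial := by positivity
  have h4 : (0 : ℝ) < 2 * (m : ℝ) - 1 := by linarith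
  rw [B_eq, closed m hm2, abs_of_pos (by positivity)]
  have h2 : (m.factorial : ℝ) * m.factorial ≤ (2 * m).factorial := by
    have := Nat.le_of_dvd (Nat.factorial_pos _) (Nat.factorial_mul_factorial_dvd_factorial_add m m)
    rw [two_mul]; exact_mod_cast this
  have h3 : 1 / (m.factorial : ℝ) < C ^ m := by
    rw [div_lt_one hf, one_div, inv_pow] at h1
    rw [one_div]
    exact (inv_lt_comm₀ hf (by positivity)).mpr h1
  have h5 : 3 * ((m : ℝ) + 2) ≤
      4 ^ (m + 5) * (m : ℝ) ^ 2 * ((m : ℝ) + 1) ^ 3 * (2 * (m : ℝ) - 1) * (2 * (m : ℝ) + 3) := by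
    have a1 : (3 : ℝ) ≤ 4 ^ (m + 5) := by
      calc (3 : ℝ) ≤ 4 ^ 1 := by norm_num
        _ ≤ 4 ^ (m + 5) := pow_le_pow_right₀ (by norm_num) (by omega)
    have a2 : (1 : ℝ) ≤ (m : ℝ) ^ 2 := one_le_pow₀ (by linarith)
    have a3 : (1 : ℝ) ≤ ((m : ℝ) + 1) ^ 3 := one_le_pow₀ (by linarith)
    calc 3 * ((m : ℝ) + 2) = 3 * 1 * 1 * 1 * (m + 2) := by ring
      _ ≤ _ := by gcongr <;> linarith
  calc _ ≤ 1 / ((2 * m).factorial : ℝ) := by
        rw [div_le_div_iff₀ (by positivity) (by positivity), one_mul]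
        gcongr
    _ ≤ 1 / ((m.factorial : ℝ) * m.factorial) := by gcongr
    _ = (1 / (m.factorial : ℝ)) / m.factorial := by rw [div_div]
    _ < _ := by gcongr

end Pool.Agent.Results.MP_46c8ea_co.Closed
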